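import Mathlib
import Pool.Agent.R961.SSignSearch

set_option autoImplicit false

/-!
# The chromatic spectrum of `S`-signed graphs need not be an interval

For the complete graph on five vertices and a set `S` of nine permutations of `{1, 2, 3, 4}` the
spectrum contains `3` and `5` but not `4`.
-/

namespace Pool.Agent.Results.MP_3ca1b2_co.SpectrumGap

open Pool.Agent.R961.SSign Equiv

/-- `S` is a nonempty inverse-closed set of permutations of `[k] = {1, ..., k}`, regarded as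
permutations of `ℕ` that fix everything outside `[k]`. -/
def SignSet (k : ℕ) (S : Set (Equiv.Perm ℕ)) : Prop :=
  S.Nonempty ∧ (∀ π ∈ S, π⁻¹ ∈ S) ∧ ∀ π ∈ S, ∀ x, x ∉ Set.Icc 1 k → π x = x

/-- `σ` is an `S`-signature of the graph `G`: `σ v w` is the permutation of the arc `(v, w)`. -/
def IsSignature {V : Type} (G : SimpleGraph V) (S : Set (Equiv.Perm ℕ))
    (σ : V → V → Equiv.Perm ℕ) : Prop :=
  ∀ v w, G.Adj v w → σ v w ∈ S ∧ σ w v = (σ v w)⁻¹

/-- `c` is a `j`-colouring of `(G, σ)`. -/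
def IsColouring {V : Type} (G : SimpleGraph V) (σ : V → V → Equiv.Perm ℕ) (j : ℕ) (c : V → ℕ) :
    Prop :=
  (∀ v, c v ∈ Set.Icc 1 j) ∧ ∀ v w, G.Adj v w → σ v w (c v) ≠ c w

/-- The chromatic number of `(G, σ)`: the least positive `j` for which there is a `j`-colouring. -/
noncomputable def chi {V : Type} (G : SimpleGraph V) (σ : V → V → Equiv.Perm ℕ) : ℕ :=
  sInf {j | 1 ≤ j ∧ ∃ c, IsColouring G σ j c}

/-- The `S`-chromatic spectrum of `G`. -/
def chromaticSpectrum {V : Type} (G : SimpleGraph V) (S : Set (Equiv.Perm ℕ)) : Set ℕ :=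
  {n | ∃ σ, IsSignature G S σ ∧ chi G σ = n}

/-- The complete graph on five vertices. -/
abbrev K5 : SimpleGraph (Fin 5) := ⊤

/-- The nine permutations: `(2 3)` and those `π` for which exactly one of `π 4 = 1`, `π 1 = 4`
holds. -/
def S0 : Set (Equiv.Perm ℕ) :=
  {π | (∀ x, x ∉ Set.Icc 1 4 → π x = x) ∧
    ((π 1 = 1 ∧ π 2 = 3 ∧ π 3 = 2 ∧ π 4 = 4) ∨ (π 4 = 1 ∧ π 1 ≠ 4) ∨ (π 1 = 4 ∧ π 4 ≠ 1))}

theorem IsColouring.mono {V : Type} {G : SimpleGraph V} {σ : V → V → Equiv.Perm ℕ} {j j' : ℕ}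
    {c : V → ℕ} (h : IsColouring G σ j c) (hj : j ≤ j') : IsColouring G σ j' c :=
  ⟨fun v => ⟨(h.1 v).1, (h.1 v).2.trans hj⟩, h.2⟩

theorem chi_eq {V : Type} {G : SimpleGraph V} {σ : V → V → Equiv.Perm ℕ} {n : ℕ} (hn : 0 < n)
    (h1 : ∃ c, IsColouring G σ (n + 1) c) (h2 : ¬ ∃ c, IsColouring G σ n c) :
    chi G σ = n + 1 := by
  have hmem : n + 1 ∈ {j | 1 ≤ j ∧ ∃ c, IsColouring G σ j c} := ⟨by omega, h1⟩
  unfold chi
  apply le_antisymm
  · exact Nat.sInf_le hmem
  · apply le_csInf ⟨n + 1, hmem⟩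
    rintro j ⟨-, c, hc⟩
    by_contra hcon
    exact h2 ⟨c, hc.mono (by omega)⟩

/-! ### Signs as numbers -/

theorem enum : ∀ a b c d : Fin 4, a ≠ b → a ≠ c → a ≠ d → b ≠ c → b ≠ d → c ≠ d →
    (d = 0 ∧ a ≠ 3) ∨ (a = 3 ∧ d ≠ 0) → ∃ s : Fin 9, ∀ x y : Fin 4,
      (Nat.testBit (mask x.1 y.1) s.1 = true ↔ ![a, b, c, d] x = y) := by
  decide +kernel

theorem enum0 : ∀ x y : Fin 4, (Nat.testBit (mask x.1 y.1) 0 = true ↔
    (![0, 2, 1, 3] : Fin 4 → Fin 4) x = y) := by
  decide +kernel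

theorem maps {π : Equiv.Perm ℕ} (h : ∀ x, x ∉ Set.Icc 1 4 → π x = x) {x : ℕ}
    (hx : x ∈ Set.Icc 1 4) : π x ∈ Set.Icc 1 4 := by
  by_contra hc
  have h1 := h _ hc
  have h2 : π x = x := π.injective h1
  rw [h2] at hc
  exact hc hx

/-- The restriction to `{1, ..., 4}`. -/
def res (π : Equiv.Perm ℕ) (h : ∀ x, x ∉ Set.Icc 1 4 → π x = x) (i : Fin 4) : Fin 4 :=
  ⟨π (i.1 + 1) - 1, by
    have := maps h (x := i.1 + 1) ⟨by omega, by have := i.2; omega⟩
    have h1 := this.1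
    have h2 := this.2
    omega⟩

theorem res_eq {π : Equiv.Perm ℕ} (h : ∀ x, x ∉ Set.Icc 1 4 → π x = x) (i y : Fin 4) :
    res π h i = y ↔ π (i.1 + 1) = y.1 + 1 := by
  have := maps h (x := i.1 + 1) ⟨by omega, by have := i.2; omega⟩
  have h1 := this.1
  unfold res
  rw [Fin.ext_iff]
  simp only
  omega

theorem res_inj {π : Equiv.Perm ℕ} (h : ∀ x, x ∉ Set.Icc 1 4 → π x = x) {i j : Fin 4}
    (hij : i ≠ j) : res π h i ≠ res π h j := by
  intro he
  have h1 := (res_eq h i (res π h j)).1 he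
  have h2 := (res_eq h j (res π h j)).1 rfl
  have h3 := π.injective (h1.trans h2.symm)
  apply hij
  ext
  omega

theorem res_vec {π : Equiv.Perm ℕ} (h : ∀ x, x ∉ Set.Icc 1 4 → π x = x) (i : Fin 4) :
    ![res π h 0, res π h 1, res π h 2, res π h 3] i = res π h i := by
  fin_cases i <;> rfl

theorem exists_sign {π : Equiv.Perm ℕ} (hπ : π ∈ S0) : ∃ s : ℕ, s < 9 ∧
    (∀ x y : ℕ, x < 4 → y < 4 → (Nat.testBit (mask x y) s = true ↔ π (x + 1) = y + 1)) ∧
    (π 1 = 1 → s = 0) := by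
  obtain ⟨hfix, h | h⟩ := hπ
  · refine ⟨0, by norm_num, ?_, fun _ => rfl⟩
    intro x y hx hy
    have h1 := enum0 ⟨x, hx⟩ ⟨y, hy⟩
    simp only at h1
    rw [h1]
    obtain ⟨h1', h2, h3, h4⟩ := h
    interval_cases x
    · rw [h1']; simp [Fin.ext_iff, eq_comm]
    · rw [h2]; simp [Fin.ext_iff, eq_comm]
    · rw [h3]; simp [Fin.ext_iff, eq_comm]
    · rw [h4]; simp [Fin.ext_iff, eq_comm]
  · have hx : (res π hfix 3 = 0 ∧ res π hfix 0 ≠ 3) ∨ (res π hfix 0 = 3 ∧ res π hfix 3 ≠ 0) := by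
      rw [Ne, Ne, res_eq, res_eq]
      exact h
    obtain ⟨s, hs⟩ := enum (res π hfix 0) (res π hfix 1) (res π hfix 2) (res π hfix 3)
      (res_inj hfix (by decide)) (res_inj hfix (by decide)) (res_inj hfix (by decide))
      (res_inj hfix (by decide)) (res_inj hfix (by decide)) (res_inj hfix (by decide)) hx
    refine ⟨s.1, s.2, ?_, ?_⟩
    · intro x y hx hy
      have h1 := hs ⟨x, hx⟩ ⟨y, hy⟩
      rw [res_vec, res_eq] at h1
      exact h1
    · intro h1
      exfalso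
      rcases h with ⟨h2, -⟩ | ⟨h2, -⟩
      · have := π.injective (h2.trans h1.symm)
        omega
      · omega

/-! ### The main case -/

/-- The edges. -/
def E5 : List (Fin 5 × Fin 5) :=
  [(0, 1), (0, 2), (1, 2), (0, 3), (1, 3), (2, 3), (0, 4), (1, 4), (2, 4), (3, 4)]

theorem needs_eq (t : ℕ) : needs t = E5.map fun e => mask (dig t e.1.1) (dig t e.2.1) := rfl

theorem cov_iff (s : Fin 5 → Fin 5 → ℕ) (t : ℕ) : Cov (E5.map fun e => s e.1 e.2) t ↔
    ∃ e ∈ E5, Nat.testBit (mask (dig t e.1.1) (dig t e.2.1)) (s e.1 e.2) = true := by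
  unfold Cov
  rw [needs_eq, List.zip_map']
  simp only [List.mem_map, Prod.exists]
  constructor
  · rintro ⟨a, b, ⟨v, w, hvw, he⟩, h⟩
    refine ⟨v, w, hvw, ?_⟩
    simp only [Prod.mk.injEq] at he
    obtain ⟨rfl, rfl⟩ := he
    exact h
  · rintro ⟨v, w, hvw, h⟩
    exact ⟨_, _, ⟨v, w, hvw, rfl⟩, h⟩

theorem mem_E5 : ∀ v w : Fin 5, v ≠ w → (v, w) ∈ E5 ∨ (w, v) ∈ E5 := by decide

theorem ne_of_mem_E5 : ∀ e ∈ E5, e.1 ≠ e.2 := by decide

/-- A code for every colouring with four colours. -/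
theorem exists_code (d : Fin 5 → ℕ) (hd : ∀ v, d v < 4) : ∃ t, ∀ v : Fin 5, dig t v.1 = d v := by
  refine ⟨d 0 + 4 * (d 1 + 4 * (d 2 + 4 * (d 3 + 4 * d 4))), ?_⟩
  have h0 := hd 0
  have h1 := hd 1
  have h2 := hd 2
  have h3 := hd 3
  have h4 := hd 4
  have hdig : ∀ t i, dig t i = t / 4 ^ i % 4 := by
    intro t i
    change (t >>> (2 * i)) % 4 = _
    rw [Nat.shiftRight_eq_div_pow, pow_mul]
    norm_num
  intro v
  rw [hdig]
  fin_cases v
  · simp only [Fin.zero_eta, pow_zero]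
    omega
  · simp only [Fin.mk_one, pow_one]
    omega
  · change _ / 4 ^ 2 % 4 = d 2
    norm_num
    omega
  · change _ / 4 ^ 3 % 4 = d 3
    norm_num
    omega
  · change _ / 4 ^ 4 % 4 = d 4
    norm_num
    omega

theorem key_aux {σ : Fin 5 → Fin 5 → Equiv.Perm ℕ} (hσ : IsSignature K5 S0 σ)
    (h01 : σ 0 1 1 = 1) : (∃ c, IsColouring K5 σ 3 c) ∨ ¬ ∃ c, IsColouring K5 σ 4 c := by
  have hs : ∀ v w : Fin 5, ∃ s : ℕ, v ≠ w → s < 9 ∧
      (∀ x y : ℕ, x < 4 → y < 4 → (Nat.testBit (mask x y) s = true ↔ σ v w (x + 1) = y + 1)) ∧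
      (σ v w 1 = 1 → s = 0) := by
    intro v w
    by_cases hvw : v = w
    · exact ⟨0, fun h => absurd hvw h⟩
    · obtain ⟨s, h⟩ := exists_sign (hσ v w hvw).1
      exact ⟨s, fun _ => h⟩
  choose s hs using hs
  have hok : Ok (E5.map fun e => s e.1 e.2)
      [1, 511, 511, 511, 511, 511, 511, 511, 511, 511] := by
    have h511 : ∀ n : ℕ, n < 9 → Nat.testBit 511 n = true := by
      intro n hn
      interval_cases n <;> decide
    have h0 : s 0 1 = 0 := (hs 0 1 (by decide)).2.2 h01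
    have hlt : ∀ v w : Fin 5, v ≠ w → Nat.testBit 511 (s v w) = true := fun v w h =>
      h511 _ (hs v w h).1
    refine .cons ?_ (.cons (hlt _ _ (by decide)) (.cons (hlt _ _ (by decide))
      (.cons (hlt _ _ (by decide)) (.cons (hlt _ _ (by decide)) (.cons (hlt _ _ (by decide))
      (.cons (hlt _ _ (by decide)) (.cons (hlt _ _ (by decide)) (.cons (hlt _ _ (by decide))
      (.cons (hlt _ _ (by decide)) .nil)))))))))
    change Nat.testBit 1 (s 0 1) = true
    rw [h0]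
    decide
  rcases search hok with ⟨t, ht3, ht⟩ | h4
  · left
    rw [cov_iff] at ht
    push Not at ht
    refine ⟨fun v => dig t v.1 + 1, ?_, ?_⟩
    · intro v
      unfold is3 at ht3
      simp only [Bool.and_eq_true] at ht3
      have h3 : ∀ n, Nat.blt n 3 = true → n < 3 := fun n hn => by
        simpa [Nat.blt_eq] using hn
      obtain ⟨a0, a1, a2, a3, a4⟩ := ht3
      have b0 := h3 _ a0
      have b1 := h3 _ a1
      have b2 := h3 _ a2
      have b3 := h3 _ a3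
      have b4 := h3 _ a4
      refine ⟨by simp, ?_⟩
      fin_cases v
      · change dig t 0 + 1 ≤ 3; omega
      · change dig t 1 + 1 ≤ 3; omega
      · change dig t 2 + 1 ≤ 3; omega
      · change dig t 3 + 1 ≤ 3; omega
      · change dig t 4 + 1 ≤ 3; omega
    · intro v w hvw hc
      have hne : v ≠ w := hvw
      rcases mem_E5 v w hne with hm | hm
      · exact ht _ hm (((hs v w hne).2.1 _ _ (dig_lt t _) (dig_lt t _)).2 hc)
      · have h1 := (hσ v w hvw).2
        have hc' : σ w v (dig t w.1 + 1) = dig t v.1 + 1 := by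
          rw [h1, Equiv.Perm.inv_eq_iff_eq]
          exact hc.symm
        exact ht _ hm (((hs w v hne.symm).2.1 _ _ (dig_lt t _) (dig_lt t _)).2 hc')
  · right
    rintro ⟨c, hc1, hc2⟩
    obtain ⟨t, ht⟩ := exists_code (fun v => c v - 1) fun v => by
      have h1 := (hc1 v).1
      have h2 := (hc1 v).2
      omega
    obtain ⟨e, he, hb⟩ := (cov_iff s t).1 (h4 t)
    have hne := ne_of_mem_E5 e he
    rw [(hs e.1 e.2 hne).2.1 _ _ (dig_lt t _) (dig_lt t _), ht, ht] at hb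
    have h1 := (hc1 e.1).1
    have h2 := (hc1 e.2).1
    rw [Nat.sub_add_cancel h1, Nat.sub_add_cancel h2] at hb
    exact hc2 e.1 e.2 hne hb

theorem exists_perm : ∀ a b : Fin 5, a ≠ b → (swap 0 a * swap 1 (swap 0 a b)) 0 = a ∧
    (swap 0 a * swap 1 (swap 0 a b)) 1 = b := by decide

theorem key {σ : Fin 5 → Fin 5 → Equiv.Perm ℕ} (hσ : IsSignature K5 S0 σ) :
    (∃ c, IsColouring K5 σ 3 c) ∨ ¬ ∃ c, IsColouring K5 σ 4 c := by
  by_cases hT : ∃ a b : Fin 5, a ≠ b ∧ σ a b 1 = 1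
  · obtain ⟨a, b, hab, h1⟩ := hT
    obtain ⟨e, he0, he1⟩ : ∃ e : Equiv.Perm (Fin 5), e 0 = a ∧ e 1 = b :=
      ⟨_, exists_perm a b hab⟩
    have hσ' : IsSignature K5 S0 fun v w => σ (e v) (e w) := by
      intro v w hvw
      exact hσ (e v) (e w) (fun h => hvw (e.injective h))
    rcases key_aux hσ' (by simpa [he0, he1] using h1) with ⟨c, hc⟩ | h
    · left
      refine ⟨fun v => c (e.symm v), fun v => hc.1 _, fun v w hvw => ?_⟩
      have := hc.2 (e.symm v) (e.symm w) (fun h => hvw (e.symm.injective h))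
      simpa using this
    · right
      rintro ⟨c, hc⟩
      exact h ⟨fun v => c (e v), fun v => hc.1 _, fun v w hvw =>
        hc.2 (e v) (e w) (fun h => hvw (e.injective h))⟩
  · push Not at hT
    exact Or.inl ⟨fun _ => 1, fun v => ⟨le_rfl, by norm_num⟩, fun v w hvw => hT v w hvw⟩

/-! ### The values 3 and 5 -/

/-- Fixing everything outside `{1, ..., 4}`. -/
def Fixes (π : Equiv.Perm ℕ) : Prop := ∀ x, x ∉ Set.Icc 1 4 → π x = x

theorem Fixes.mul {π ρ : Equiv.Perm ℕ} (h1 : Fixes π) (h2 : Fixes ρ) : Fixes (π * ρ) := by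
  intro x hx
  rw [Equiv.Perm.mul_apply, h2 x hx, h1 x hx]

theorem Fixes.inv {π : Equiv.Perm ℕ} (h : Fixes π) : Fixes π⁻¹ := by
  intro x hx
  rw [Equiv.Perm.inv_eq_iff_eq]
  exact (h x hx).symm

theorem fixes_one : Fixes 1 := fun _ _ => rfl

theorem fixes_swap {a b : ℕ} (ha : a ∈ Set.Icc 1 4) (hb : b ∈ Set.Icc 1 4) :
    Fixes (swap a b) := by
  intro x hx
  apply swap_apply_of_ne_of_ne
  · rintro rfl; exact hx ha
  · rintro rfl; exact hx hb

/-- `1 → 2 → 3 → 4 → 1` -/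
def pA : Equiv.Perm ℕ := swap 1 2 * swap 2 3 * swap 3 4

/-- `1 → 3 → 4 → 1` -/
def pC : Equiv.Perm ℕ := swap 1 3 * swap 3 4

/-- `1 → 3 → 2 → 4 → 1` -/
def pD : Equiv.Perm ℕ := swap 1 3 * swap 3 2 * swap 2 4

theorem fixes_A : Fixes pA :=
  ((fixes_swap (by simp) (by simp)).mul (fixes_swap (by simp) (by simp))).mul
    (fixes_swap (by simp) (by simp))

theorem fixes_C : Fixes pC :=
  (fixes_swap (by simp) (by simp)).mul (fixes_swap (by simp) (by simp))

theorem fixes_D : Fixes pD :=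
  ((fixes_swap (by simp) (by simp)).mul (fixes_swap (by simp) (by simp))).mul
    (fixes_swap (by simp) (by simp))

/-- A potential for the signature with chromatic number five. -/
def pot : Fin 5 → Equiv.Perm ℕ := ![1, swap 2 3, pA, pC, pC⁻¹]

theorem fixes_pot (v : Fin 5) : Fixes (pot v) := by
  fin_cases v
  · exact fixes_one
  · exact fixes_swap (by simp) (by simp)
  · exact fixes_A
  · exact fixes_C
  · exact fixes_C.inv

theorem pot_mem : ∀ v w : Fin 5, v ≠ w →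
    (((pot w * (pot v)⁻¹) 1 = 1 ∧ (pot w * (pot v)⁻¹) 2 = 3 ∧ (pot w * (pot v)⁻¹) 3 = 2 ∧
      (pot w * (pot v)⁻¹) 4 = 4) ∨
      ((pot w * (pot v)⁻¹) 4 = 1 ∧ (pot w * (pot v)⁻¹) 1 ≠ 4) ∨
      ((pot w * (pot v)⁻¹) 1 = 4 ∧ (pot w * (pot v)⁻¹) 4 ≠ 1)) := by
  decide

theorem five_mem : 5 ∈ chromaticSpectrum K5 S0 := by
  refine ⟨fun v w => pot w * (pot v)⁻¹, ?_, ?_⟩
  · intro v w hvw
    refine ⟨⟨(fixes_pot w).mul (fixes_pot v).inv, pot_mem v w hvw⟩, ?_⟩
    simp only [mul_inv_rev, inv_inv]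
  · refine chi_eq (n := 4) (by norm_num) ?_ ?_
    · refine ⟨fun v => pot v (v.1 + 1), ?_, ?_⟩
      · intro v
        by_cases hv : v.1 + 1 ∈ Set.Icc 1 4
        · have := maps (fixes_pot v) hv
          exact ⟨this.1, this.2.trans (by norm_num)⟩
        · simp only [fixes_pot v _ hv]
          exact ⟨by omega, by have := v.2; omega⟩
      · intro v w hvw h
        have h' : pot w ((pot v)⁻¹ (pot v (v.1 + 1))) = pot w (w.1 + 1) := h
        have := (pot w).injective h'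
        rw [show (pot v)⁻¹ (pot v (v.1 + 1)) = v.1 + 1 from (pot v).symm_apply_apply _] at this
        apply hvw
        ext
        omega
    · rintro ⟨c, hc1, hc2⟩
      have hmaps : ∀ v ∈ (Finset.univ : Finset (Fin 5)), (pot v)⁻¹ (c v) ∈ Finset.Icc 1 4 := by
        intro v _
        have := maps (fixes_pot v).inv (hc1 v)
        exact Finset.mem_Icc.2 this
      obtain ⟨v, -, w, -, hvw, he⟩ := Finset.exists_ne_map_eq_of_card_lt_of_maps_to
        (by simp) hmaps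
      apply hc2 v w hvw
      rw [Equiv.Perm.mul_apply, he]
      exact (pot w).apply_symm_apply _

/-- The signature with chromatic number three on the arcs `(v, w)` with `v < w`. -/
def tri : Fin 5 → Fin 5 → Equiv.Perm ℕ :=
  ![![1, swap 2 3, swap 2 3, pC, pC],
    ![1, 1, pC, pD, pD],
    ![1, 1, 1, pD, pD],
    ![1, 1, 1, 1, swap 2 3],
    ![1, 1, 1, 1, 1]]

/-- The signature with chromatic number three. -/
def sig3 (v w : Fin 5) : Equiv.Perm ℕ := if v < w then tri v w else (tri w v)⁻¹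

theorem fixes_tri (v w : Fin 5) : Fixes (tri v w) := by
  have h1 := fixes_one
  have h2 : Fixes (swap 2 3) := fixes_swap (by simp) (by simp)
  have h3 := fixes_C
  have h4 := fixes_D
  fin_cases v <;> fin_cases w <;> assumption

theorem sig3_mem : ∀ v w : Fin 5, v ≠ w →
    ((sig3 v w 1 = 1 ∧ sig3 v w 2 = 3 ∧ sig3 v w 3 = 2 ∧ sig3 v w 4 = 4) ∨
      (sig3 v w 4 = 1 ∧ sig3 v w 1 ≠ 4) ∨ (sig3 v w 1 = 4 ∧ sig3 v w 4 ≠ 1)) := by
  decide

theorem sig3_col : ∀ v w : Fin 5, v ≠ w →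
    sig3 v w ((![3, 1, 1, 1, 2] : Fin 5 → ℕ) v) ≠ (![3, 1, 1, 1, 2] : Fin 5 → ℕ) w := by
  decide

theorem three_mem : 3 ∈ chromaticSpectrum K5 S0 := by
  refine ⟨sig3, ?_, ?_⟩
  · intro v w hvw
    refine ⟨⟨?_, sig3_mem v w hvw⟩, ?_⟩
    · unfold sig3
      split_ifs
      · exact fixes_tri v w
      · exact (fixes_tri w v).inv
    · unfold sig3
      rcases lt_or_gt_of_ne hvw with h | h
      · rw [if_pos h, if_neg (not_lt.2 h.le)]
      · rw [if_neg (not_lt.2 h.le), if_pos h, inv_inv]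
  · refine chi_eq (n := 2) (by norm_num) ?_ ?_
    · refine ⟨![3, 1, 1, 1, 2], ?_, sig3_col⟩
      intro v
      fin_cases v <;> simp
    · rintro ⟨c, hc1, hc2⟩
      have e01 := hc2 0 1 (by decide)
      have e02 := hc2 0 2 (by decide)
      have e12 := hc2 1 2 (by decide)
      have e03 := hc2 0 3 (by decide)
      have e04 := hc2 0 4 (by decide)
      have e34 := hc2 3 4 (by decide)
      have r1 : ∀ v, c v = 1 ∨ c v = 2 := fun v => by
        have h1 := (hc1 v).1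
        have h2 := (hc1 v).2
        omega
      have f01 : sig3 0 1 1 = 1 := by decide
      have f02 : sig3 0 2 1 = 1 := by decide
      have f12 : sig3 1 2 2 = 2 := by decide
      have f03 : sig3 0 3 2 = 2 := by decide
      have f04 : sig3 0 4 2 = 2 := by decide
      have f34 : sig3 3 4 1 = 1 := by decide
      rcases r1 0 with h0 | h0
      · rw [h0, f01] at e01
        rw [h0, f02] at e02
        have h1 : c 1 = 2 := (r1 1).resolve_left fun h => e01 h.symm
        have h2 : c 2 = 2 := (r1 2).resolve_left fun h => e02 h.symm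
        rw [h1, f12, h2] at e12
        exact e12 rfl
      · rw [h0, f03] at e03
        rw [h0, f04] at e04
        have h3 : c 3 = 1 := (r1 3).resolve_right fun h => e03 h.symm
        have h4 : c 4 = 1 := (r1 4).resolve_right fun h => e04 h.symm
        rw [h3, f34, h4] at e34
        exact e34 rfl

theorem four_notMem : 4 ∉ chromaticSpectrum K5 S0 := by
  rintro ⟨σ, hσ, hchi⟩
  have hne : {j | 1 ≤ j ∧ ∃ c, IsColouring K5 σ j c}.Nonempty := by
    by_contra hc
    rw [Set.not_nonempty_iff_eq_empty] at hc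
    unfold chi at hchi
    rw [hc, Nat.sInf_empty] at hchi
    omega
  have h4 : ∃ c, IsColouring K5 σ 4 c := by
    have := Nat.sInf_mem hne
    unfold chi at hchi
    rw [hchi] at this
    exact this.2
  rcases key hσ with h3 | h
  · have : chi K5 σ ≤ 3 := Nat.sInf_le ⟨by norm_num, h3⟩
    omega
  · exact h h4

theorem signSet : SignSet 4 S0 := by
  refine ⟨⟨swap 2 3, fixes_swap (by simp) (by simp), Or.inl (by decide)⟩, ?_, fun π hπ => hπ.1⟩
  rintro π ⟨h1, h2⟩
  refine ⟨Fixes.inv h1, ?_⟩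
  simp only [Equiv.Perm.inv_eq_iff_eq]
  rcases h2 with ⟨a, b, c, d⟩ | h2
  · exact Or.inl ⟨a.symm, c.symm, b.symm, d.symm⟩
  · right
    rcases h2 with ⟨h2, h3⟩ | ⟨h2, h3⟩
    · exact Or.inr ⟨h2.symm, fun h => h3 (Equiv.Perm.inv_eq_iff_eq.1 h).symm⟩
    · exact Or.inl ⟨h2.symm, fun h => h3 (Equiv.Perm.inv_eq_iff_eq.1 h).symm⟩

/-- **The `S`-chromatic spectrum of a graph need not be an interval.** There is a nonempty
inverse-closed set `S` of permutations of `{1, 2, 3, 4}` such that the `S`-chromatic spectrum of the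
complete graph on five vertices contains `3` and `5` but not `4`. -/
theorem result : ∃ S : Set (Equiv.Perm ℕ), SignSet 4 S ∧
    3 ∈ chromaticSpectrum (⊤ : SimpleGraph (Fin 5)) S ∧
    5 ∈ chromaticSpectrum (⊤ : SimpleGraph (Fin 5)) S ∧
    4 ∉ chromaticSpectrum (⊤ : SimpleGraph (Fin 5)) S :=
  ⟨S0, signSet, three_mem, five_mem, four_notMem⟩

end Pool.Agent.Results.MP_3ca1b2_co.SpectrumGap
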